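import Pool.Agent.L7h4.FR.Def

set_option autoImplicit false

/-! Project FR, part ACK (pole placement). -/

namespace Pool.Agent.L7h44.FR

open Pool.Agent.L7h4.FR Polynomial Matrix

variable {n : ℕ}

/-- the product of `X - r j`, `j ≠ i` -/
noncomputable def qp (r : Fin n → ℂ) (i : Fin n) : ℂ[X] := ∏ j ∈ Finset.univ.erase i, (X - C (r j))

theorem qp_monic (r : Fin n → ℂ) (i : Fin n) : (qp r i).Monic :=
  monic_prod_of_monic _ _ fun j _ => monic_X_sub_C (r j)

theorem qp_deg (r : Fin n → ℂ) (i : Fin n) : (qp r i).natDegree = n - 1 := by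
  unfold qp
  rw [natDegree_prod_of_monic _ _ fun j _ => monic_X_sub_C (r j)]
  simp only [natDegree_X_sub_C, Finset.sum_const, smul_eq_mul, mul_one]
  rw [Finset.card_erase_of_mem (Finset.mem_univ _), Finset.card_univ, Fintype.card_fin]

theorem qp_mul (r : Fin n → ℂ) (i : Fin n) : (X - C (r i)) * qp r i = ∏ j, (X - C (r j)) := by
  unfold qp
  exact Finset.mul_prod_erase Finset.univ (fun j => X - C (r j)) (Finset.mem_univ i)

theorem det_rank_one (w : Fin n → ℂ) (l : Fin n) :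
    (1 + Matrix.vecMulVec w (Pi.single l 1)).det = 1 + w l := by
  rw [Matrix.vecMulVec_eq Unit, Matrix.det_one_add_replicateCol_mul_replicateRow]
  simp

theorem s_ACK (hHES : S_HES) : S_ACK := by
  intro n hn H r hH hdet hr hprod
  obtain ⟨l, hl⟩ : ∃ l : Fin n, l = ⟨n - 1, by omega⟩ := ⟨_, rfl⟩
  rw [← hl]
  have hE := hHES n hn H hH
  have hEu : IsUnit (obs n hn H).det := isUnit_iff_ne_zero.2 hE
  have hHu : IsUnit H.det := isUnit_iff_ne_zero.2 hdet
  obtain ⟨y, hy⟩ : ∃ y : Fin n → ℂ, y = (obs n hn H)⁻¹ *ᵥ Pi.single l 1 := ⟨_, rfl⟩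
  have hy1 : obs n hn H *ᵥ y = Pi.single l 1 := by
    rw [hy, Matrix.mulVec_mulVec, Matrix.mul_nonsing_inv _ hEu, Matrix.one_mulVec]
  have hy2 : ∀ k < n, (H ^ k *ᵥ y) l = if k = n - 1 then 1 else 0 := by
    intro k hk
    have h1 := congrFun hy1 ⟨k, hk⟩
    have h2 : (obs n hn H *ᵥ y) ⟨k, hk⟩ = (H ^ k *ᵥ y) l := by
      rw [hl]
      rfl
    rw [← h2, h1, hl, Pi.single_apply]
    simp only [Fin.mk.injEq]
  have hq : ∀ i, ((aeval H (qp r i)) *ᵥ y) l = 1 := by
    intro i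
    have hd : (qp r i).natDegree < n := by rw [qp_deg]; omega
    rw [aeval_eq_sum_range' hd]
    have h1 : ((∑ k ∈ Finset.range n, (qp r i).coeff k • H ^ k) *ᵥ y) l =
        ∑ k ∈ Finset.range n, (qp r i).coeff k * (H ^ k *ᵥ y) l := by
      rw [Matrix.sum_mulVec, Finset.sum_apply]
      refine Finset.sum_congr rfl fun k _ => ?_
      rw [Matrix.smul_mulVec, Pi.smul_apply, smul_eq_mul]
    rw [h1, Finset.sum_eq_single (n - 1)]
    · rw [hy2 _ (by omega), if_pos rfl, mul_one]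
      have h2 := (qp_monic r i).coeff_natDegree
      rwa [qp_deg] at h2
    · intro k hk hne
      rw [hy2 _ (Finset.mem_range.1 hk), if_neg hne, mul_zero]
    · intro h
      exact absurd (Finset.mem_range.2 (by omega)) h
  obtain ⟨v, hv⟩ : ∃ v : Fin n → Fin n → ℂ, v = fun i => (aeval H (qp r i)) *ᵥ y := ⟨_, rfl⟩
  obtain ⟨x, hx⟩ : ∃ x : Fin n → ℂ, x = -((aeval H (∏ j, (X - C (r j)) : ℂ[X])) *ᵥ y) := ⟨_, rfl⟩
  obtain ⟨w, hw⟩ : ∃ w : Fin n → ℂ, w = H⁻¹ *ᵥ x := ⟨_, rfl⟩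
  have hvl : ∀ i, v i l = 1 := fun i => by rw [hv]; exact hq i
  have hHw : H *ᵥ w = x := by
    rw [hw, Matrix.mulVec_mulVec, Matrix.mul_nonsing_inv _ hHu, Matrix.one_mulVec]
  have hHv : ∀ i, H *ᵥ v i + x = r i • v i := by
    intro i
    have h1 : x = -((H - r i • 1) *ᵥ v i) := by
      rw [hx, hv, ← qp_mul r i, map_mul, ← Matrix.mulVec_mulVec]
      congr 2
      rw [map_sub, aeval_X, aeval_C, Algebra.algebraMap_eq_smul_one]
    rw [h1, Matrix.sub_mulVec, Matrix.smul_mulVec, Matrix.one_mulVec]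
    abel
  obtain ⟨R, hR⟩ : ∃ R, R = H * (1 + Matrix.vecMulVec w (Pi.single l 1)) := ⟨_, rfl⟩
  have hRv : ∀ i, R *ᵥ v i = r i • v i := by
    intro i
    have h1 : Matrix.vecMulVec w (Pi.single l 1) *ᵥ v i = w := by
      rw [Matrix.vecMulVec_mulVec]
      simp [hvl i]
    rw [hR, ← Matrix.mulVec_mulVec, Matrix.add_mulVec, Matrix.one_mulVec, h1, Matrix.mulVec_add,
      hHw, hHv i]
  have hli : LinearIndependent ℂ v := by
    refine Module.End.eigenvectors_linearIndependent' (Matrix.toLin' R) r hr v fun i => ?_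
    rw [Module.End.hasEigenvector_iff, Module.End.mem_eigenspace_iff]
    refine ⟨?_, fun h => ?_⟩
    · rw [Matrix.toLin'_apply, hRv i]
    · have := hvl i
      rw [h] at this
      simp at this
  obtain ⟨V, hV⟩ : ∃ V : Matrix (Fin n) (Fin n) ℂ, V = Matrix.of fun i j => v j i := ⟨_, rfl⟩
  have hVu : IsUnit V := by
    rw [← Matrix.linearIndependent_cols_iff_isUnit]
    have : V.col = v := by
      rw [hV]
      rfl
    rw [this]
    exact hli
  have hVd : IsUnit V.det := (Matrix.isUnit_iff_isUnit_det V).1 hVu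
  have hRV : R * V = V * Matrix.diagonal r := by
    ext i j
    rw [Matrix.mul_diagonal]
    have h1 : (R * V) i j = (R *ᵥ v j) i := by
      rw [hV]
      rfl
    rw [h1, hRv j, hV]
    simp [mul_comm]
  have hR2 : R = V * Matrix.diagonal r * V⁻¹ := by
    rw [← hRV, Matrix.mul_assoc, Matrix.mul_nonsing_inv _ hVd, Matrix.mul_one]
  refine ⟨w, V, V⁻¹, ?_, Matrix.mul_nonsing_inv _ hVd, Matrix.nonsing_inv_mul _ hVd, ?_⟩
  · have h1 : R.det = H.det := by
      rw [hR2, Matrix.det_mul, Matrix.det_mul, Matrix.det_diagonal, hprod, mul_right_comm,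
        ← Matrix.det_mul, Matrix.mul_nonsing_inv _ hVd, Matrix.det_one, one_mul]
    rw [hR, Matrix.det_mul, det_rank_one] at h1
    have h2 : 1 + w l = 1 := mul_left_cancel₀ hdet (by rw [h1, mul_one])
    simpa using h2
  · rw [← hR, hR2]

end Pool.Agent.L7h44.FR
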