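import Pool.Agent.L7h4.FR.Def

set_option autoImplicit false

/-! Project FR, part HES. -/

namespace Pool.Agent.L7h44.FR

open Pool.Agent.L7h4.FR

theorem hes_row {n : ℕ} (hn : 0 < n) {H : Matrix (Fin n) (Fin n) ℂ} (hH : Hes H) (k : ℕ) (hk : k < n) :
    (∀ j : Fin n, (j : ℕ) + k < n - 1 → (H ^ k) ⟨n - 1, by omega⟩ j = 0) ∧
    ∀ j : Fin n, (j : ℕ) + k = n - 1 → (H ^ k) ⟨n - 1, by omega⟩ j ≠ 0 := by
  induction k with
  | zero =>
    constructor
    · intro j hj
      rw [pow_zero, Matrix.one_apply_ne]
      intro h
      have := congrArg Fin.val h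
      simp only at this
      omega
    · intro j hj
      have h : (⟨n - 1, by omega⟩ : Fin n) = j := Fin.ext (by simp only; omega)
      rw [pow_zero, h, Matrix.one_apply_eq]
      exact one_ne_zero
  | succ k ih =>
    obtain ⟨h1, h2⟩ := ih (by omega)
    constructor
    · intro j hj
      rw [pow_succ, Matrix.mul_apply]
      refine Finset.sum_eq_zero fun i _ => ?_
      by_cases hi : (i : ℕ) + k < n - 1
      · rw [h1 i hi, zero_mul]
      · rw [hH.1 i j (by omega), mul_zero]
    · intro j hj
      rw [pow_succ, Matrix.mul_apply]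
      have hj' : (j : ℕ) + 1 < n := by omega
      rw [Finset.sum_eq_single (⟨(j : ℕ) + 1, hj'⟩ : Fin n)]
      · refine mul_ne_zero (h2 _ (by simp only; omega)) (hH.2 _ _ (by simp only))
      · intro i _ hne
        by_cases hi : (i : ℕ) + k < n - 1
        · rw [h1 i hi, zero_mul]
        · have hne' : (i : ℕ) ≠ (j : ℕ) + 1 := fun h => hne (Fin.ext h)
          rw [hH.1 i j (by omega), mul_zero]
      · intro h
        exact absurd (Finset.mem_univ _) h

theorem s_HES : S_HES := by
  intro n hn H hH
  have h1 := Matrix.det_permute' (Fin.revPerm (n := n)) (obs n hn H)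
  have h2 : ((obs n hn H).submatrix id (Fin.revPerm (n := n))).det ≠ 0 := by
    rw [Matrix.det_of_lowerTriangular]
    · rw [Finset.prod_ne_zero_iff]
      intro k _
      exact (hes_row hn hH k k.2).2 _ (by
        simp only [Fin.revPerm_apply, Fin.val_rev]
        omega)
    · intro i j hij
      have hij' : i < j := hij
      exact (hes_row hn hH i i.2).1 _ (by
        simp only [Fin.revPerm_apply, Fin.val_rev]
        have : (i : ℕ) < j := hij'
        omega)
  intro h3
  rw [h3, mul_zero] at h1
  exact h2 h1

end Pool.Agent.L7h44.FR
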